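import Mathlib

/-!
The quandle structure `(a,b) ▷ (c,d) = (c d⁻¹ b, d c⁻¹ a)` on `H × H`.
-/

namespace Q8.SQ

/-- The quandle axioms for `op x y = x ▷ y`. -/
structure IsQuandle {X : Type*} (op : X → X → X) : Prop where
  idem : ∀ x, op x x = x
  bij : ∀ y, Function.Bijective (fun x => op x y)
  distrib : ∀ x y z, op (op x y) z = op (op x z) (op y z)

/-- Algebraic connectedness: the group generated by the permutations `S_y : x ↦ x ▷ y` acts
transitively. -/
def AlgConnected {X : Type*} (op : X → X → X) : Prop :=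
  ∀ x y, ∃ π ∈ Subgroup.closure {π : Equiv.Perm X | ∃ z, ∀ x, π x = op x z}, π x = y

section

variable {H : Type*} [Group H]

/-- `(a,b) ▷ (c,d) = (c d⁻¹ b, d c⁻¹ a)` on `H × H`. -/
def op (x y : H × H) : H × H := (y.1 * y.2⁻¹ * x.2, y.2 * y.1⁻¹ * x.1)

lemma op_quandle : IsQuandle (op : H × H → H × H → H × H) where
  idem x := by
    refine Prod.ext ?_ ?_ <;> simp [op]
  bij y := by
    constructor
    · intro x x' h
      have h1 := congrArg Prod.fst h
      have h2 := congrArg Prod.snd h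
      simp only [op] at h1 h2
      exact Prod.ext (mul_left_cancel h2) (mul_left_cancel h1)
    · intro u
      refine ⟨(y.1 * y.2⁻¹ * u.2, y.2 * y.1⁻¹ * u.1), ?_⟩
      refine Prod.ext ?_ ?_ <;> simp [op, mul_assoc]
  distrib x y z := by
    refine Prod.ext ?_ ?_ <;> simp only [op] <;> group

/-- right multiplication by `(z, z)` -/
def rm (z : H) (x : H × H) : H × H := (x.1 * z, x.2 * z)

lemma op_rm_right (x y : H × H) (z : H) : op x (rm z y) = op x y := by
  refine Prod.ext ?_ ?_ <;> simp [op, rm, mul_assoc]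

lemma op_rm_left (x y : H × H) (z : H) : op (rm z x) y = rm z (op x y) := by
  refine Prod.ext ?_ ?_ <;> simp [op, rm, mul_assoc]

/-- If `H × H` is algebraically connected and embeds into a conjugation quandle then `H` is
commutative. -/
theorem comm_of_injective (hconn : AlgConnected (op : H × H → H × H → H × H)) {G : Type*} [Group G]
    (f : H × H → G) (hf : ∀ x y, f (op x y) = (f y)⁻¹ * f x * f y) (hinj : Function.Injective f)
    (z z' : H) : z * z' = z' * z := by
  let d : H → H × H → G := fun z y => f (rm z y) * (f y)⁻¹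
  have hfd : ∀ z y, f (rm z y) = d z y * f y := fun z y => by simp [d]
  -- `d z y` centralizes the image of `f`
  have hd : ∀ z y x, d z y * f x = f x * d z y := by
    intro z y x
    have h1 := hf x (rm z y)
    rw [op_rm_right, hf] at h1
    have h2 : f (rm z y) * ((f y)⁻¹ * f x * f y) * (f y)⁻¹ =
      f (rm z y) * ((f (rm z y))⁻¹ * f x * f (rm z y)) * (f y)⁻¹ := by rw [h1]
    simp only [d]
    calc f (rm z y) * (f y)⁻¹ * f x = f (rm z y) * ((f y)⁻¹ * f x * f y) * (f y)⁻¹ := by group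
      _ = f (rm z y) * ((f (rm z y))⁻¹ * f x * f (rm z y)) * (f y)⁻¹ := h2
      _ = f x * (f (rm z y) * (f y)⁻¹) := by group
  have hz' : d z' 1 = f (rm z' 1) * (f 1)⁻¹ := rfl
  clear_value d
  -- invariance
  have hinv : ∀ z x y, d z (op x y) = d z x := by
    intro z x y
    have h1 : f (rm z (op x y)) = (f y)⁻¹ * f (rm z x) * f y := by rw [← op_rm_left, hf]
    have h2 : d z (op x y) * f (op x y) = d z x * f (op x y) := by
      rw [← hfd, h1, hfd, hf]
      calc (f y)⁻¹ * (d z x * f x) * f y = (f y)⁻¹ * (d z x * f y) * ((f y)⁻¹ * f x * f y) := by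
            group
        _ = (f y)⁻¹ * (f y * d z x) * ((f y)⁻¹ * f x * f y) := by rw [hd]
        _ = d z x * ((f y)⁻¹ * f x * f y) := by group
    exact mul_right_cancel h2
  have hconst : ∀ z x y, d z x = d z y := by
    intro z x y
    obtain ⟨π, hπ, rfl⟩ := hconn x y
    suffices h : ∀ x, d z (π x) = d z x from (h x).symm
    induction hπ using Subgroup.closure_induction with
    | mem π hπ =>
      obtain ⟨w, hw⟩ := hπ
      intro x
      rw [hw, hinv]
    | one => intro x; rfl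
    | mul π π' _ _ h h' =>
      intro x
      rw [Equiv.Perm.mul_apply, h, h']
    | inv π _ h =>
      intro x
      have h1 := h (π⁻¹ x)
      have h2 : π (π⁻¹ x) = x := π.apply_symm_apply x
      rw [h2] at h1
      exact h1.symm
  have e1 : f (rm z' (rm z 1)) = d z' 1 * (d z 1 * f 1) := by
    rw [hfd z' (rm z 1), hconst z' (rm z 1) 1, hfd z 1]
  have e2 : f (rm z (rm z' 1)) = d z 1 * (d z' 1 * f 1) := by
    rw [hfd z (rm z' 1), hconst z (rm z' 1) 1, hfd z' 1]
  have c1 := hd z 1 (rm z' 1)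
  have c2 := hd z 1 1
  have c3 : d z 1 * (f 1)⁻¹ = (f 1)⁻¹ * d z 1 := by
    calc d z 1 * (f 1)⁻¹ = (f 1)⁻¹ * (f 1 * d z 1) * (f 1)⁻¹ := by group
      _ = (f 1)⁻¹ * (d z 1 * f 1) * (f 1)⁻¹ := by rw [c2]
      _ = (f 1)⁻¹ * d z 1 := by group
  have hcomm : d z' 1 * d z 1 = d z 1 * d z' 1 := by
    calc d z' 1 * d z 1 = f (rm z' 1) * ((f 1)⁻¹ * d z 1) := by rw [hz', mul_assoc]
      _ = f (rm z' 1) * d z 1 * (f 1)⁻¹ := by rw [← c3, mul_assoc]
      _ = d z 1 * f (rm z' 1) * (f 1)⁻¹ := by rw [c1]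
      _ = d z 1 * d z' 1 := by rw [hz', mul_assoc]
  have h1 : f (rm z' (rm z 1)) = f (rm z (rm z' 1)) := by
    rw [e1, e2, ← mul_assoc, ← mul_assoc, hcomm]
  have h2 := hinj h1
  have h3 := congrArg Prod.fst h2
  simpa [rm] using h3

/-- the permutation `x ↦ (g x₁, g⁻¹ x₂)` -/
def Lp (g : H) : Equiv.Perm (H × H) where
  toFun x := (g * x.1, g⁻¹ * x.2)
  invFun x := (g⁻¹ * x.1, g * x.2)
  left_inv x := by simp
  right_inv x := by simp

/-- the permutation `S_y` -/
def Sp (y : H × H) : Equiv.Perm (H × H) where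
  toFun x := op x y
  invFun x := op x y
  left_inv x := by
    refine Prod.ext ?_ ?_ <;> simp [op, mul_assoc]
  right_inv x := by
    refine Prod.ext ?_ ?_ <;> simp [op, mul_assoc]

lemma Lp_mem (g : H) :
    Lp g ∈ Subgroup.closure {π : Equiv.Perm (H × H) | ∃ z, ∀ x, π x = op x z} := by
  have h : Lp g = Sp (g, 1) * Sp 1 := by
    ext x
    · simp [Lp, Sp, op]
    · simp [Lp, Sp, op]
  rw [h]
  apply Subgroup.mul_mem
  · exact Subgroup.subset_closure ⟨(g, 1), fun x => rfl⟩
  · exact Subgroup.subset_closure ⟨1, fun x => rfl⟩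

/-- If every element of `H` is a commutator then `H × H` is algebraically connected. -/
theorem connected_of_commutators (h : ∀ q : H, ∃ a b : H, q = a⁻¹ * b⁻¹ * a * b) :
    AlgConnected (op : H × H → H × H → H × H) := by
  intro x y
  obtain ⟨a, b, hab⟩ := h (y.2 * x.2⁻¹ * (y.1 * x.1⁻¹))
  refine ⟨Lp a * Lp b * Lp (a * b)⁻¹ * Lp (y.1 * x.1⁻¹), ?_, ?_⟩
  · exact Subgroup.mul_mem _ (Subgroup.mul_mem _ (Subgroup.mul_mem _ (Lp_mem a) (Lp_mem b))
      (Lp_mem _)) (Lp_mem _)
  · refine Prod.ext ?_ ?_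
    · simp only [Equiv.Perm.mul_apply, Lp, Equiv.coe_fn_mk]
      group
    · simp only [Equiv.Perm.mul_apply, Lp, Equiv.coe_fn_mk]
      have e : a⁻¹ * (b⁻¹ * (((a * b)⁻¹)⁻¹ * ((y.1 * x.1⁻¹)⁻¹ * x.2))) =
        (a⁻¹ * b⁻¹ * a * b) * ((y.1 * x.1⁻¹)⁻¹ * x.2) := by group
      rw [e, ← hab]
      group

end

end Q8.SQ
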