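import Mathlib
import Pool.Agent.Q8.SQ.Abstract

/-!
The quandle `S³ × S³`.
-/

open scoped Quaternion Manifold ContDiff
open Metric

namespace Q8.SQ

noncomputable section

/-- The unit sphere of the quaternions, a Lie group diffeomorphic to `S³`. -/
abbrev S3 : Type := sphere (0 : ℍ[ℝ]) 1

instance : Fact (Module.finrank ℝ ℍ[ℝ] = 3 + 1) := ⟨by
  rw [Quaternion.finrank_eq_four]⟩

lemma S3_normSq (q : S3) : Quaternion.normSq (q : ℍ[ℝ]) = 1 := by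
  rw [Quaternion.normSq_eq_norm_mul_self]
  have := mem_sphere_zero_iff_norm.1 q.2
  rw [this]; norm_num

/-- normalisation -/
def nrm (u : ℍ[ℝ]) (hu : u ≠ 0) : S3 := ⟨(‖u‖⁻¹ : ℝ) • u, by
  rw [mem_sphere_zero_iff_norm, norm_smul, norm_inv, norm_norm, inv_mul_cancel₀]
  exact norm_ne_zero_iff.2 hu⟩

/-- quaternion with given coordinates -/
def mkq (a b c d : ℝ) : ℍ[ℝ] := ⟨a, b, c, d⟩

@[simp] lemma mkq_re (a b c d : ℝ) : (mkq a b c d).re = a := rfl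
@[simp] lemma mkq_imI (a b c d : ℝ) : (mkq a b c d).imI = b := rfl
@[simp] lemma mkq_imJ (a b c d : ℝ) : (mkq a b c d).imJ = c := rfl
@[simp] lemma mkq_imK (a b c d : ℝ) : (mkq a b c d).imK = d := rfl

lemma mkq_ne {a b c d : ℝ} (h : b ≠ 0 ∨ c ≠ 0) : mkq a b c d ≠ 0 := by
  intro h0
  rcases h with h | h
  · apply h
    have : (mkq a b c d).imI = (0 : ℍ[ℝ]).imI := by rw [h0]
    simpa using this
  · apply h
    have : (mkq a b c d).imJ = (0 : ℍ[ℝ]).imJ := by rw [h0]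
    simpa using this

lemma key (q : ℍ[ℝ]) (hq : Quaternion.normSq q = 1) :
    ∃ p v : ℍ[ℝ], p ≠ 0 ∧ v ≠ 0 ∧ p * v = q * (v * p) := by
  have hq' : q.re ^ 2 + q.imI ^ 2 + q.imJ ^ 2 + q.imK ^ 2 = 1 := by
    have := Quaternion.normSq_def' (a := q)
    rw [hq] at this
    exact this.symm
  by_cases h1 : q = -1
  · refine ⟨mkq 0 1 0 0, mkq 0 0 1 0, mkq_ne (Or.inl one_ne_zero), mkq_ne (Or.inr one_ne_zero), ?_⟩
    rw [h1]
    ext <;> simp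
  · have hp : (1 : ℍ[ℝ]) + q ≠ 0 := by
      intro h
      apply h1
      exact (neg_eq_of_add_eq_zero_right h).symm
    by_cases h2 : q.imI = 0 ∧ q.imJ = 0
    · refine ⟨1 + q, mkq 0 1 0 0, hp, mkq_ne (Or.inl one_ne_zero), ?_⟩
      obtain ⟨hI, hJ⟩ := h2
      rw [hI, hJ] at hq'
      ext <;> simp [hI, hJ] <;> nlinarith [hq']
    · refine ⟨1 + q, mkq 0 q.imJ (-q.imI) 0, hp, ?_, ?_⟩
      · apply mkq_ne
        by_contra hc
        push Not at hc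
        exact h2 ⟨neg_eq_zero.1 hc.2, hc.1⟩
      · ext
        · simp; ring
        · simp; linear_combination -q.imJ * hq'
        · simp; linear_combination q.imI * hq'
        · simp; ring

/-- every unit quaternion is a commutator -/
lemma commutator (q : S3) : ∃ a b : S3, q = a⁻¹ * b⁻¹ * a * b := by
  obtain ⟨p, v, hp, hv, h⟩ := key (q : ℍ[ℝ]) (S3_normSq q)
  refine ⟨(nrm p hp)⁻¹, (nrm v hv)⁻¹, ?_⟩
  rw [inv_inv, inv_inv]
  have h1 : nrm p hp * nrm v hv = q * (nrm v hv * nrm p hp) := by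
    apply Subtype.ext
    show (‖p‖⁻¹ • p) * (‖v‖⁻¹ • v) = (q : ℍ[ℝ]) * ((‖v‖⁻¹ • v) * (‖p‖⁻¹ • p))
    rw [smul_mul_smul_comm, smul_mul_smul_comm, mul_smul_comm, h, mul_comm ‖p‖⁻¹]
  rw [h1]
  group

/-- The quandle operation on `S³ × S³`: `(a,b) ▷ (c,d) = (c d⁻¹ b, d c⁻¹ a)`. -/
def opS (x y : S3 × S3) : S3 × S3 := (y.1 * y.2⁻¹ * x.2, y.2 * y.1⁻¹ * x.1)

lemma opS_eq : opS = op := rfl

lemma noncomm : ∃ z z' : S3, z * z' ≠ z' * z := by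
  refine ⟨nrm (mkq 0 1 0 0) (mkq_ne (Or.inl one_ne_zero)), nrm (mkq 0 0 1 0)
    (mkq_ne (Or.inr one_ne_zero)), ?_⟩
  intro h
  have h1 := congrArg (fun z : S3 => (z : ℍ[ℝ])) h
  change (‖mkq 0 1 0 0‖⁻¹ • mkq 0 1 0 0) * (‖mkq 0 0 1 0‖⁻¹ • mkq 0 0 1 0) =
    (‖mkq 0 0 1 0‖⁻¹ • mkq 0 0 1 0) * (‖mkq 0 1 0 0‖⁻¹ • mkq 0 1 0 0) at h1
  rw [smul_mul_smul_comm, smul_mul_smul_comm, mul_comm ‖mkq 0 1 0 0‖⁻¹] at h1
  have n1 : ‖mkq 0 1 0 0‖ ≠ 0 := norm_ne_zero_iff.2 (mkq_ne (Or.inl one_ne_zero))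
  have n2 : ‖mkq 0 0 1 0‖ ≠ 0 := norm_ne_zero_iff.2 (mkq_ne (Or.inr one_ne_zero))
  have h2 := smul_right_injective ℍ[ℝ] (mul_ne_zero (inv_ne_zero n2) (inv_ne_zero n1)) h1
  have h3 := congrArg (fun z : ℍ[ℝ] => z.imK) h2
  simp at h3
  norm_num at h3

/-- star as a continuous linear map -/
def starL : ℍ[ℝ] →L[ℝ] ℍ[ℝ] := LinearMap.toContinuousLinearMap
  { toFun := star
    map_add' := star_add
    map_smul' := fun c x => by
      ext <;> simp }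

lemma coe_inv (q : S3) : ((q⁻¹ : S3) : ℍ[ℝ]) = starL (q : ℍ[ℝ]) := by
  show (q : ℍ[ℝ])⁻¹ = star (q : ℍ[ℝ])
  rw [Quaternion.inv_def, S3_normSq, inv_one, one_smul]

/-- model with corners of `S³ × S³` -/
abbrev IS : ModelWithCorners ℝ (EuclideanSpace ℝ (Fin 3) × EuclideanSpace ℝ (Fin 3))
    (ModelProd (EuclideanSpace ℝ (Fin 3)) (EuclideanSpace ℝ (Fin 3))) := (𝓡 3).prod (𝓡 3)

lemma smooth_aux {M : Type*} [TopologicalSpace M] {E' : Type*} [NormedAddCommGroup E']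
    [NormedSpace ℝ E'] {H' : Type*} [TopologicalSpace H'] {I' : ModelWithCorners ℝ E' H'}
    [ChartedSpace H' M] [IsManifold I' ω M] (a b c : M → S3) (ha : ContMDiff I' (𝓡 3) ω a)
    (hb : ContMDiff I' (𝓡 3) ω b) (hc : ContMDiff I' (𝓡 3) ω c) :
    ContMDiff I' (𝓡 3) ω (fun m => a m * (b m)⁻¹ * c m) := by
  have h : ContMDiff I' 𝓘(ℝ, ℍ[ℝ]) ω
      (fun m => (a m : ℍ[ℝ]) * starL (b m : ℍ[ℝ]) * (c m : ℍ[ℝ])) := by
    have ha' : ContMDiff I' 𝓘(ℝ, ℍ[ℝ]) ω (fun m => (a m : ℍ[ℝ])) := contMDiff_coe_sphere.comp ha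
    have hb' : ContMDiff I' 𝓘(ℝ, ℍ[ℝ]) ω (fun m => (b m : ℍ[ℝ])) := contMDiff_coe_sphere.comp hb
    have hc' : ContMDiff I' 𝓘(ℝ, ℍ[ℝ]) ω (fun m => (c m : ℍ[ℝ])) := contMDiff_coe_sphere.comp hc
    have hst : ContMDiff I' 𝓘(ℝ, ℍ[ℝ]) ω (fun m => starL (b m : ℍ[ℝ])) :=
      (starL.contDiff.contMDiff).comp hb'
    have hmul : ContMDiff (𝓘(ℝ, ℍ[ℝ]).prod 𝓘(ℝ, ℍ[ℝ])) 𝓘(ℝ, ℍ[ℝ]) ω
        (fun z : ℍ[ℝ] × ℍ[ℝ] => z.1 * z.2) := by
      rw [contMDiff_iff]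
      exact ⟨continuous_mul, fun x y => contDiff_mul.contDiffOn⟩
    exact hmul.comp ((hmul.comp (ha'.prodMk hst)).prodMk hc')
  have h2 := ContMDiff.codRestrict_sphere (n := 3) h (fun m => by
    have := (a m * (b m)⁻¹ * c m).2
    rw [← coe_inv]
    exact this)
  refine h2.congr ?_
  intro m
  apply Subtype.ext
  show (a m : ℍ[ℝ]) * ((b m)⁻¹ : S3) * (c m : ℍ[ℝ]) = _
  rw [coe_inv]
  rfl

theorem opS_smooth : ContMDiff (IS.prod IS) IS ω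
    (fun p : (S3 × S3) × (S3 × S3) => opS p.1 p.2) := by
  have f1 : ContMDiff (IS.prod IS) IS ω (fun p : (S3 × S3) × (S3 × S3) => p.1) := contMDiff_fst
  have f2 : ContMDiff (IS.prod IS) IS ω (fun p : (S3 × S3) × (S3 × S3) => p.2) := contMDiff_snd
  have g1 : ContMDiff IS (𝓡 3) ω (fun p : S3 × S3 => p.1) := contMDiff_fst
  have g2 : ContMDiff IS (𝓡 3) ω (fun p : S3 × S3 => p.2) := contMDiff_snd
  exact (smooth_aux _ _ _ (g1.comp f2) (g2.comp f2) (g2.comp f1)).prodMk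
    (smooth_aux _ _ _ (g2.comp f2) (g1.comp f2) (g1.comp f1))

theorem S3_connected : ConnectedSpace (S3 × S3) := by
  have h : IsConnected (sphere (0 : ℍ[ℝ]) 1) := isConnected_sphere (by
    rw [← Module.finrank_eq_rank, Quaternion.finrank_eq_four]; norm_num) 0 zero_le_one
  have : ConnectedSpace S3 := Subtype.connectedSpace h
  infer_instance

end

end Q8.SQ
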